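import Mathlib
import Pool.Agent.Helper273.Machine

/-!
# Baire measurable versus computable LCL problems on Z^n: the parts

Project BC (frozen statement S14672, problem MP_4c94f5_lc), by helper817.
-/

set_option autoImplicit false

namespace Pool.Agent.Y817.BC

open Pool.Agent.Helper273.Machine

abbrev G : Type := Fin 3 → ℤ

/-- Unit vectors. -/
def e (i : Fin 3) : G := Pi.single i 1

/-- The sup norm. -/
def nn (v : G) : ℕ := Finset.univ.sup (fun i => (v i).natAbs)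

/-! ### The local problem -/

/-- Labels: three pointers and a letter. -/
abbrev Lab (L : Type) : Type := (Fin 3 → Fin 3 → Fin 21) × L

/-- The vector of a pointer. -/
def toG (d : Fin 3 → Fin 21) : G := fun i => (d i : ℤ) - 10

/-- The local rule at the origin. -/
def OK {L : Type} (rel : Fin 3 → L → L → Prop) (F : G → Lab L) : Prop :=
  (∀ i j, toG ((F 0).1 i) + toG ((F (toG ((F 0).1 i))).1 j) =
      toG ((F 0).1 j) + toG ((F (toG ((F 0).1 j))).1 i)) ∧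
  ∀ i, rel i (F 0).2 (F (toG ((F 0).1 i))).2

/-- Valid configurations on `ℤ³`. -/
def Val {L : Type} (rel : Fin 3 → L → L → Prop) (T : G → L) : Prop :=
  ∀ t i, rel i (T t) (T (t + e i))

/-- Valid configurations on `ℕ³`. -/
def ValN {L : Type} (rel : Fin 3 → L → L → Prop) (T : ℕ → ℕ → ℕ → L) : Prop :=
  ∀ x y z, rel 0 (T x y z) (T (x + 1) y z) ∧ rel 1 (T x y z) (T x (y + 1) z) ∧
    rel 2 (T x y z) (T x y (z + 1))

/-- Toeplitz configurations. -/
def Toep {L : Type} (T : G → L) : Prop :=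
  ∀ t, ∃ m : ℕ, 0 < m ∧ ∀ q : G, T (t + (m : ℤ) • q) = T t

/-- Every free Borel action has a Baire measurable solution. -/
def BaireOK {L : Type} (rel : Fin 3 → L → L → Prop) : Prop :=
  ∀ (X : Type) [TopologicalSpace X] [PolishSpace X] [MeasurableSpace X] [BorelSpace X]
    (act : G → X → X), (∀ x, act 0 x = x) → (∀ a b x, act (a + b) x = act a (act b x)) →
    (∀ γ, Measurable (act γ)) → (∀ γ x, act γ x = x → γ = 0) →
    ∃ f : X → Lab L, (∀ l : Lab L, ∃ u : Set X, IsOpen u ∧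
        Filter.EventuallyEq (residual X) (f ⁻¹' {l}) u) ∧
      ∀ x, OK rel (fun g => f (act g x))

/-! ### The computable side -/

/-- COMP. -/
def StmComp : Prop := ∃ act : G → ℕ → ℕ, (∀ x, act 0 x = x) ∧
  (∀ a b x, act (a + b) x = act a (act b x)) ∧ (∀ γ, Computable (act γ)) ∧
  (∀ γ x, act γ x = x → γ = 0) ∧
  ∀ (L : Type) [Fintype L] (rel : Fin 3 → L → L → Prop) (k : ℕ) (ε : Lab L ≃ Fin k)
    (f : ℕ → Fin k), Computable f → (∀ x, OK rel (fun g => ε.symm (f (act g x)))) →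
    ∃ T : ℕ → ℕ → ℕ → L, ValN rel T ∧
      ∀ φ : L → ℕ, Computable (fun p : ℕ × ℕ × ℕ => φ (T p.1 p.2.1 p.2.2))

/-! ### The machine -/

/-- Register machines with checks. -/
structure Mch where
  N : ℕ
  Q : Type
  fin : Fintype Q
  dec : DecidableEq Q
  ins : Q → MI (N + 1) Q
  q0 : Q
  chk : Q → Option Bool

instance (M : Mch) : Fintype M.Q := M.fin
instance (M : Mch) : DecidableEq M.Q := M.dec

/-- The configuration at time `t`, started with empty registers. -/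
def Mch.run (M : Mch) (t : ℕ) : M.Q × (Fin (M.N + 1) → ℕ) := (mstep M.ins)^[t] (M.q0, fun _ => 0)

/-- The class of the machine. -/
def Mch.Cls (M : Mch) (P : ℕ → Bool) : Prop :=
  ∀ t b, M.chk (M.run t).1 = some b → P (padicValNat 2 ((M.run t).2 0 + 1)) ≠ b

/-- MACH. -/
def StmMach : Prop := ∃ M : Mch, (∃ P, M.Cls P) ∧ ∀ P, M.Cls P → ¬ Computable P

/-! ### Hierarchical labels in dimension two -/

/-- Types. -/
inductive Ty | C | V1 | V2 | H1 | H2
  deriving DecidableEq, Fintype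

/-- Type `V`. -/
def Ty.isV : Ty → Bool
  | .V1 => true
  | .V2 => true
  | _ => false

/-- Type `H`. -/
def Ty.isH : Ty → Bool
  | .H1 => true
  | .H2 => true
  | _ => false

/-- Hierarchical labels of the points `(x, z)`: `p`, `o` belong to the column `x`, and `q`, `u`
belong to the row `z`. -/
structure HL where
  ty : Ty
  p : Bool
  o : Bool
  q : Bool
  u : Bool
  s : Fin 4
  s' : Fin 4
  r : Fin 4
  r' : Fin 4
  deriving DecidableEq

noncomputable instance : Fintype HL := by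
  classical
  exact Fintype.ofInjective (fun a : HL => (a.ty, a.p, a.o, a.q, a.u, a.s, a.s', a.r, a.r')) (by
      rintro ⟨⟩ ⟨⟩ h
      simp only [Prod.mk.injEq] at h
      obtain ⟨rfl, rfl, rfl, rfl, rfl, rfl, rfl, rfl, rfl⟩ := h
      rfl)

/-- The rule for one label. -/
structure HL.Cell (A : HL) : Prop where
  pq : A.p = true → A.q = true → A.ty = .C
  pnq : A.p = true → A.q = false → A.ty.isH = true
  npq : A.p = false → A.q = true → A.ty.isV = true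
  s_C : A.ty = .C → A.s = if A.o then 0 else 2
  s_V1 : A.ty = .V1 → A.s = 1
  s_V2 : A.ty = .V2 → A.s = 3
  s'_C : A.ty = .C → A.s' = if A.u then 0 else 2
  s'_H1 : A.ty = .H1 → A.s' = 1
  s'_H2 : A.ty = .H2 → A.s' = 3
  r_V1 : A.p = false → A.ty = .V1 → A.r = 0 ∨ A.r = 2
  r_C : A.p = false → A.ty = .C → A.r = 1
  r_H : A.p = false → A.ty.isH = true → A.r = 3
  r'_H1 : A.q = false → A.ty = .H1 → A.r' = 0 ∨ A.r' = 2
  r'_C : A.q = false → A.ty = .C → A.r' = 1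
  r'_V : A.q = false → A.ty.isV = true → A.r' = 3

/-- The rule for `(x, z)`, `(x + 1, z)`. -/
structure HL.Hor (A B : HL) : Prop where
  p : B.p = !A.p
  q : B.q = A.q
  u : B.u = A.u
  s : B.s = if A.ty.isH then A.s else A.s + 1
  r' : A.q = false → B.r' = if A.ty = .H2 then A.r' else A.r' + 1

/-- The rule for `(x, z)`, `(x, z + 1)`. -/
structure HL.Ver (A B : HL) : Prop where
  q : B.q = !A.q
  p : B.p = A.p
  o : B.o = A.o
  s' : B.s' = if A.ty.isV then A.s' else A.s' + 1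
  r : A.p = false → B.r = if A.ty = .V2 then A.r else A.r + 1

/-- Valid configurations on `ℕ²`. -/
def V2 (c : ℕ → ℕ → HL) : Prop :=
  ∀ x z, (c x z).Cell ∧ HL.Hor (c x z) (c (x + 1) z) ∧ HL.Ver (c x z) (c x (z + 1))

/-- The derived configuration. -/
def der (a b : ℕ) (c : ℕ → ℕ → HL) : ℕ → ℕ → HL := fun X Z =>
  { c (2 * X + a) (2 * Z + b) with
    p := !(c (2 * X + a + 1) (2 * Z + b)).o
    q := !(c (2 * X + a) (2 * Z + b + 1)).u }

/-- CLOSE. -/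
def StmClose : Prop := ∀ (c : ℕ → ℕ → HL) (a b : ℕ), V2 c → (a = 1 ∨ a = 2) → (b = 1 ∨ b = 2) →
  (∀ z, (c a z).p = false) → (∀ x, (c x b).q = false) → V2 (der a b c)

/-- The indicator of level `k` at the place `bk + 2 ^ k * i`. -/
def qk (q u : ℕ → Bool) (bk k i : ℕ) : Bool :=
  if k = 0 then q i else !u (bk + 2 ^ k * i + 2 ^ (k - 1))

/-- The offset of level `k`. -/
def bb (q u : ℕ → Bool) : ℕ → ℕ
  | 0 => 0
  | k + 1 => bb q u k + 2 ^ k * (if qk q u (bb q u k) k 1 then 2 else 1)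

/-- A place of level `k`. -/
def zz (q u : ℕ → Bool) (k : ℕ) : ℕ :=
  bb q u k + (if qk q u (bb q u k) k 0 then 0 else 2 ^ k)

/-- HIER. -/
def StmHier : Prop := ∀ (c : ℕ → ℕ → HL) (p o q u : ℕ → Bool), V2 c →
  (∀ x z, (c x z).p = p x ∧ (c x z).o = o x ∧ (c x z).q = q z ∧ (c x z).u = u z) →
  (∀ k i j, 0 < j → j < 2 ^ k → (c (bb p o k + 2 ^ k * i + j) (zz q u k)).ty.isH = true) ∧
  (∀ k i, (c (bb p o k + 2 ^ k * i) (zz q u k)).ty.isH = false) ∧
  ∀ k i j, 0 < j → j < 2 ^ k →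
    (c (bb p o k + 2 ^ k * i + j) (zz q u (padicValNat 2 j))).ty = .C

/-- ZCOMP. -/
def StmZComp : Prop := ∀ q u : ℕ → Bool, Computable q → Computable u → Computable (zz q u)

/-! ### The alphabet -/

/-- Letters. -/
structure Lam (M : Mch) where
  A : HL
  B : HL
  be : Bool
  ga : Bool
  q : M.Q
  zr : Fin (M.N + 1) → Bool
  m : Fin (M.N + 1) → Bool
  mL : Fin (M.N + 1) → Bool
  mR : Fin (M.N + 1) → Bool
  fst : Bool

noncomputable instance (M : Mch) : Fintype (Lam M) := by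
  classical
  exact Fintype.ofInjective (fun a : Lam M =>
    (a.A, a.B, a.be, a.ga, a.q, a.zr, a.m, a.mL, a.mR, a.fst)) (by
      rintro ⟨⟩ ⟨⟩ h
      simp only [Prod.mk.injEq] at h
      obtain ⟨rfl, rfl, rfl, rfl, rfl, rfl, rfl, rfl, rfl, rfl⟩ := h
      rfl)

namespace Lam

variable {M : Mch}

/-- Interior points of the squares. -/
def inn (a : Lam M) : Prop := a.A.ty.isH = true ∧ a.B.ty.isH = true

/-- The rule for one letter. -/
structure Cell (a : Lam M) : Prop where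
  A : a.A.Cell
  B : a.B.Cell
  q : a.A.q = a.B.q
  u : a.A.u = a.B.u
  bg : a.A.ty = .C → a.be = a.ga
  chk : a.inn → a.m 0 = true → ∀ b, M.chk a.q = some b → a.be ≠ b

/-- The rule in direction `x`. -/
structure R0 (a b : Lam M) : Prop where
  cell : a.Cell
  A : HL.Hor a.A b.A
  B : b.B = a.B
  ga : b.ga = a.ga
  ii : a.inn → b.inn → b.q = a.q ∧ b.zr = a.zr ∧ b.mL = a.m ∧ a.mR = b.m ∧ b.fst = false
  bi : ¬ a.inn → b.inn → b.fst = true ∧ (∀ i, b.mL i = false) ∧ b.zr = b.m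
  ib : a.inn → ¬ b.inn → ∀ i, a.mR i = false

/-- The new state and the new markers. -/
def nxt (a : Lam M) : M.Q × (Fin (M.N + 1) → Bool) :=
  match M.ins a.q with
  | .inc r q => (q, Function.update a.m r (a.mL r))
  | .dec r q q' => if a.zr r = true then (q', a.m) else (q, Function.update a.m r (a.mR r))
  | .jmp q => (q, a.m)

/-- The rule in direction `y`. -/
structure R1 (a b : Lam M) : Prop where
  B : HL.Hor a.B b.B
  A : b.A = a.A
  be : b.be = a.be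
  ga : b.ga = a.ga
  ii : a.inn → b.inn → b.q = a.nxt.1 ∧ b.m = a.nxt.2
  bi : ¬ a.inn → b.inn → b.q = M.q0 ∧ ∀ i, b.m i = b.fst

/-- The rule in direction `z`. -/
structure R2 (a b : Lam M) : Prop where
  A : HL.Ver a.A b.A
  B : HL.Ver a.B b.B
  be : b.be = a.be

end Lam

/-- The rules. -/
def rel (M : Mch) : Fin 3 → Lam M → Lam M → Prop := ![Lam.R0, Lam.R1, Lam.R2]

/-- SQUARE. -/
def StmSquare : Prop := ∀ (M : Mch) (n : ℕ) (g : ℕ → ℕ → Lam M),
  (∀ x y, x < n → y ≤ n → Lam.R0 (g x y) (g (x + 1) y)) →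
  (∀ x y, x ≤ n → y < n → Lam.R1 (g x y) (g x (y + 1))) →
  (∀ x y, x ≤ n → y ≤ n → ((g x y).A.ty.isH = true ↔ 0 < x ∧ x < n)) →
  (∀ x y, x ≤ n → y ≤ n → ((g x y).B.ty.isH = true ↔ 0 < y ∧ y < n)) →
  ∀ t x, t + 1 < n → 0 < x → x < n → (g x (t + 1)).q = (M.run t).1 ∧
    ∀ i, ((g x (t + 1)).m i = true ↔ (M.run t).2 i + 1 = x)

/-- SOUND. -/
def StmSound : Prop := ∀ (M : Mch) (T : ℕ → ℕ → ℕ → Lam M), ValN (rel M) T →
  (∀ φ : Lam M → ℕ, Computable (fun p : ℕ × ℕ × ℕ => φ (T p.1 p.2.1 p.2.2))) →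
  ∃ P, M.Cls P ∧ Computable P

/-! ### Existence of a Toeplitz configuration -/

/-- Odometers. -/
structure Odo where
  lev : ℤ → ℕ
  ori : ℤ → Bool
  sg : ℤ → ℕ → Fin 4
  pos : ℤ → ℕ → ℕ
  sg_succ : ∀ x l, sg (x + 1) l = if l ≤ lev x then sg x l + 1 else sg x l
  sg_eq : ∀ x, sg x (lev x) = if ori x then 0 else 2
  sg_one : ∀ x l, lev x = l + 1 → sg x l = 1
  sg_three : ∀ x l, l + 2 ≤ lev x → sg x l = 3
  lev_succ : ∀ x, lev (x + 1) = 0 ↔ lev x ≠ 0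
  pos_lt : ∀ x k, pos x k < 2 ^ k
  pos_succ : ∀ x k, pos (x + 1) k = if pos x k + 1 = 2 ^ k then 0 else pos x k + 1
  pos_zero : ∀ x k, pos x k = 0 ↔ k ≤ lev x
  lev_pos : ∀ x k, pos x k ≠ 0 → lev x = padicValNat 2 (pos x k)
  per : ∀ x l, ∃ m : ℕ, 0 < m ∧ ∀ q : ℤ, lev (x + m * q) = lev x ∧ ori (x + m * q) = ori x ∧
    ∀ l' ≤ l, sg (x + m * q) l' = sg x l' ∧ pos (x + m * q) l' = pos x l'

/-- ODO. -/
def StmOdo : Prop := Nonempty Odo

/-- The hierarchical label of `(x, z)`. -/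
def Odo.hl (D : Odo) (x z : ℤ) : HL where
  ty := if D.lev x = D.lev z then .C else if D.lev x = D.lev z + 1 then .V1 else
    if D.lev z < D.lev x then .V2 else if D.lev z = D.lev x + 1 then .H1 else .H2
  p := decide (D.lev x = 0)
  o := D.ori x
  q := decide (D.lev z = 0)
  u := D.ori z
  s := D.sg x (D.lev z)
  s' := D.sg z (D.lev x)
  r := D.sg z (D.lev x - 1)
  r' := D.sg x (D.lev z - 1)

/-- The configuration. -/
def Odo.T (D : Odo) (M : Mch) (P : ℕ → Bool) (t : G) : Lam M where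
  A := D.hl (t 0) (t 2)
  B := D.hl (t 1) (t 2)
  be := P (D.lev (t 0))
  ga := P (D.lev (t 2))
  q := (M.run (D.pos (t 1) (D.lev (t 2)) - 1)).1
  zr := fun i => decide ((M.run (D.pos (t 1) (D.lev (t 2)) - 1)).2 i = 0)
  m := fun i => decide ((M.run (D.pos (t 1) (D.lev (t 2)) - 1)).2 i + 1 =
    D.pos (t 0) (D.lev (t 2)))
  mL := fun i => decide ((M.run (D.pos (t 1) (D.lev (t 2)) - 1)).2 i + 2 =
    D.pos (t 0) (D.lev (t 2)))
  mR := fun i => decide ((M.run (D.pos (t 1) (D.lev (t 2)) - 1)).2 i =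
    D.pos (t 0) (D.lev (t 2)) ∧ D.pos (t 0) (D.lev (t 2)) + 1 < 2 ^ (D.lev (t 2)))
  fst := decide (D.pos (t 0) (D.lev (t 2)) = 1)

/-- HL2. -/
def StmHl2 : Prop := ∀ (D : Odo) (x z : ℤ), (D.hl x z).Cell ∧ HL.Hor (D.hl x z) (D.hl (x + 1) z) ∧
  HL.Ver (D.hl x z) (D.hl x (z + 1))

/-- TVAL. -/
def StmTVal : Prop := ∀ (D : Odo) (M : Mch) (P : ℕ → Bool), M.Cls P → Val (rel M) (D.T M P)

/-- TTOEP. -/
def StmTToep : Prop := ∀ (D : Odo) (M : Mch) (P : ℕ → Bool), Toep (D.T M P)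

/-! ### Labelings from coordinate functions -/

/-- Nice coordinate functions. -/
def Nice (h : G → G) : Prop :=
  (∀ x i, ∃ y, h y = h x + e i) ∧ ∀ x y i, (h y = h x ∨ h y = h x + e i) → nn (y - x) ≤ 10

/-- PSI. -/
def StmPsi : Prop := ∀ (L : Type) (rel : Fin 3 → L → L → Prop) (T : G → L), Val rel T →
  ∃ ψ : (G → G) → Lab L, (∀ h, Nice h → OK rel (fun g => ψ (fun y => h (y + g)))) ∧
    ∀ (h h' : G → G) (q : G), (∀ d, nn d ≤ 10 → h' d = h d + q) → T (h 0 + q) = T (h 0) →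
      ψ h' = ψ h

/-- Slope at most `s`. -/
def Slope (s : ℝ) (w : G → Fin 3 → ℝ) : Prop := ∀ x i j, |w (x + e i) j - w x j| ≤ s

/-- The coordinate function of a displacement. -/
noncomputable def coord (w : G → Fin 3 → ℝ) : G → G := fun y j => ⌊((y j : ℝ) - w y j) / 4⌋

/-- FLOOR. -/
def StmFloor : Prop := ∀ w : G → Fin 3 → ℝ, Slope (1 / 16) w → Nice (coord w)

/-! ### Insertion -/

/-- Cut-off. -/
noncomputable def eta (I ρ n : ℕ) : ℝ := max 0 (min 1 (((ρ : ℝ) - n) / ((ρ : ℝ) - I)))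

/-- The new value near the centre `c`. -/
noncomputable def tgt (P : ℕ) (w : G → Fin 3 → ℝ) (c : G) (j : Fin 3) : ℝ :=
  c j + P * (round ((w c j - c j) / P) : ℤ)

open Classical in
/-- Insertion at the centres. -/
noncomputable def ins (I ρ P : ℕ) (E : G → Prop) (w : G → Fin 3 → ℝ) : G → Fin 3 → ℝ :=
  fun x j => if h : ∃ c, E c ∧ nn (x - c) ≤ ρ then
    w x j + eta I ρ (nn (x - h.choose)) * (tgt P w h.choose j - w x j) else w x j

/-- Discrete sets. -/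
def Disc (ρ : ℕ) (E : G → Prop) : Prop := ∀ c c', E c → E c' → nn (c - c') ≤ 2 * ρ + 1 → c = c'

/-- SLOPE. -/
def StmSlope : Prop := ∀ (I ρ P : ℕ) (E : G → Prop) (w : G → Fin 3 → ℝ) (s : ℝ), 0 < P → 0 < ρ →
  2 * I ≤ ρ → Disc ρ E → 0 ≤ s → Slope s w →
  Slope (7 * s + P / ρ) (ins I ρ P E w) ∧
    ∀ x j, |ins I ρ P E w x j - w x j| ≤ P / 2 + 3 * s * ρ

/-- Parameters. -/
structure Par where
  I : ℕ → ℕ
  ρ : ℕ → ℕ
  P : ℕ → ℕ

/-- Iterated insertion. -/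
noncomputable def W (p : Par) (E : ℕ → G → Prop) : ℕ → (G → Fin 3 → ℝ) → G → Fin 3 → ℝ
  | 0, w => w
  | k + 1, w => W p E k (ins (p.I k) (p.ρ k) (p.P k) (E k) w)

/-- The sum of the radii below `k`. -/
def Par.R (p : Par) (k : ℕ) : ℕ := ∑ l ∈ Finset.range k, p.ρ l

/-- A bound for the displacement at a centre. -/
def Par.S (p : Par) (k : ℕ) : ℕ := ∑ l ∈ Finset.range k, (p.P l + p.ρ l)

/-- LOCA: locality and equivariance. -/
def StmLocA : Prop := ∀ (p : Par) (E E' : ℕ → G → Prop), (∀ k, 0 < p.P k) →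
  (∀ k, Disc (p.ρ k) (E k)) → (∀ k, Disc (p.ρ k) (E' k)) →
  (∀ (j : ℕ) (w w' : G → Fin 3 → ℝ) (x : G) (lam : Fin 3 → ℤ),
    (∀ k < j, ∀ i, (p.P k : ℤ) ∣ lam i) →
    (∀ k < j, ∀ c, nn (c - x) ≤ p.R j → (E k c ↔ E' k c)) →
    (∀ y, nn (y - x) ≤ p.R j → ∀ i, w' y i = w y i + lam i) →
    ∀ i, W p E' j w' x i = W p E j w x i + lam i) ∧
  ∀ (g : G) (j : ℕ) (w : G → Fin 3 → ℝ) (x : G) (i : Fin 3),
    W p (fun k c => E k (c + g)) j (fun y i => w (y + g) i - g i) x i =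
      W p E j w (x + g) i - g i

/-- LOCB: the effect of an insertion. -/
def StmLocB : Prop := ∀ (p : Par) (E : ℕ → G → Prop), (∀ k, 0 < p.P k) →
  (∀ k, p.P k ∣ p.P (k + 1)) → (∀ k, p.I k < p.ρ k) → (∀ k, Disc (p.ρ k) (E k)) →
  ∀ (j k : ℕ) (c : G) (w : G → Fin 3 → ℝ), k < j → E k c →
    ∃ lam : Fin 3 → ℤ, (∀ i, (p.P k : ℤ) ∣ lam i) ∧
      ∀ x, nn (x - c) + p.R k ≤ p.I k → ∀ i,
        W p E j w x i = W p E k (fun _ i => (c i : ℝ)) x i + lam i

/-- Good parameters. -/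
structure Par.Good {L : Type} (p : Par) (T : G → L) : Prop where
  P_pos : ∀ k, 0 < p.P k
  P_dvd : ∀ k, p.P k ∣ p.P (k + 1)
  P_four : ∀ k, 4 ∣ p.P k
  I_eq : ∀ k, p.I k = p.R k + 10
  I_le : ∀ k, 2 * p.I k ≤ p.ρ k
  P_le : ∀ k, 32 * 14 ^ k * p.P k ≤ p.ρ k
  per : ∀ k t, nn t ≤ p.S k + 1 → ∀ q : G, T (t + ((p.P k / 4 : ℕ) : ℤ) • q) = T t

/-- PAR. -/
def StmPar : Prop := ∀ (L : Type) (T : G → L), Toep T → ∃ p : Par, p.Good T

/-- FIN. -/
def StmFin : Prop := ∀ (L : Type) (T : G → L) (p : Par), p.Good T → ∀ (E : ℕ → G → Prop),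
  (∀ k, Disc (p.ρ k) (E k)) → ∀ (j : ℕ) (c : G), Slope (1 / 16) (W p E j (fun _ i => (c i : ℝ))) ∧
    ∀ x i, |W p E j (fun _ i => (c i : ℝ)) x i - c i| ≤ p.S j

/-- MEAS. -/
def StmMeas : Prop := ∀ (Z : Type) (f : (ℕ → G → Bool) → Z) (S : Finset (ℕ × G)),
  (∀ E E', (∀ p ∈ S, E p.1 p.2 = E' p.1 p.2) → f E = f E') → ∀ z, MeasurableSet {E | f E = z}

/-- ENV. -/
def StmEnv : Prop := ∀ (L : Type) (rel : Fin 3 → L → L → Prop) (T : G → L), Val rel T →
  Toep T → ∃ (ρ : ℕ → ℕ) (Φ : (ℕ → G → Bool) → Lab L), (∀ l, MeasurableSet (Φ ⁻¹' {l})) ∧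
    (∀ E : ℕ → G → Bool, (∀ k, Disc (ρ k) (fun c => E k c = true)) →
      (∀ g, ∃ k, E k g = true) → OK rel (fun g => Φ (fun k c => E k (c + g)))) ∧
    ∃ F : G → Lab L, ∀ x, OK rel (fun g => F (g + x))

/-- CENTERS. -/
def StmCenters : Prop := ∀ (X : Type) [TopologicalSpace X] [PolishSpace X] [MeasurableSpace X]
  [BorelSpace X] (act : G → X → X), (∀ x, act 0 x = x) →
  (∀ a b x, act (a + b) x = act a (act b x)) → (∀ γ, Measurable (act γ)) →
  (∀ γ x, act γ x = x → γ = 0) → ∀ ρ : ℕ → ℕ, ∃ A : ℕ → Set X, (∀ k, MeasurableSet (A k)) ∧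
    (∀ k x c, x ∈ A k → act c x ∈ A k → nn c ≤ 2 * ρ k + 1 → c = 0) ∧
    {x | ∀ g, ∃ k, act g x ∈ A k} ∈ residual X

/-- BFIN. -/
def StmBFin : Prop := ∀ (L : Type) [Fintype L] (rel : Fin 3 → L → L → Prop) (ρ : ℕ → ℕ)
  (Φ : (ℕ → G → Bool) → Lab L) (F : G → Lab L), (∀ l, MeasurableSet (Φ ⁻¹' {l})) →
  (∀ E : ℕ → G → Bool, (∀ k, Disc (ρ k) (fun c => E k c = true)) →
      (∀ g, ∃ k, E k g = true) → OK rel (fun g => Φ (fun k c => E k (c + g)))) →
  (∀ x, OK rel (fun g => F (g + x))) → BaireOK rel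

end Pool.Agent.Y817.BC
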