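import Pool.Agent.Y817.BC.Fin
import Pool.Agent.Y550.BC.Mach
import Pool.Agent.Y801.BC.Close
import Pool.Agent.Y801.BC.Hier
import Pool.Agent.Y571.BC.ZComp
import Pool.Agent.Y571.BC.Square
import Pool.Agent.Y571.BC.Sound
import Pool.Agent.Y168.BC.Odo
import Pool.Agent.Y168.BC.Hl2
import Pool.Agent.Y986.BC.TVal
import Pool.Agent.Y168.BC.Toep
import Pool.Agent.Y168.BC.Psi
import Pool.Agent.Y471.BC.Floor
import Pool.Agent.Y325.BC.Slope
import Pool.Agent.Y383.BC.LocA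
import Pool.Agent.Y383.BC.LocB
import Pool.Agent.Y325.BC.Par
import Pool.Agent.Y383.BC.Fin
import Pool.Agent.Y325.BC.Meas
import Pool.Agent.Y972.BC.Env
import Pool.Agent.Y972.BC.Centers
import Pool.Agent.Y972.BC.BFin
import Pool.Agent.Y569.BC.Comp

set_option autoImplicit false

namespace Pool.Agent.Y817.BC

theorem hier : StmHier := Pool.Agent.Y801.BC.Hier.t Pool.Agent.Y801.BC.Close.t

theorem sound : StmSound :=
  Pool.Agent.Y571.BC.Sound.t hier Pool.Agent.Y571.BC.ZComp.t Pool.Agent.Y571.BC.Square.t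

theorem tval : StmTVal := Pool.Agent.Y986.BC.t Pool.Agent.Y168.BC.Hl.t

theorem env : StmEnv :=
  Pool.Agent.Y972.BC.Env.t Pool.Agent.Y168.BC.Ps.t Pool.Agent.Y471.BC.t_floor
    Pool.Agent.Y383.BC.LocA.t (Pool.Agent.Y383.BC.LocB.t Pool.Agent.Y383.BC.LocA.t)
    Pool.Agent.Y325.BC.Par.t (Pool.Agent.Y383.BC.Fin.t Pool.Agent.Y325.BC.Slope.t)
    Pool.Agent.Y325.BC.Meas.t

theorem bfin : StmBFin := Pool.Agent.Y972.BC.BFin.t Pool.Agent.Y972.BC.Centers.t

end Pool.Agent.Y817.BC
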