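import Mathlib
import Pool.Agent.Y817.BC.Stm

set_option autoImplicit false

namespace Pool.Agent.Y817.BC

/-- The window. -/
noncomputable def win : Finset (Fin 3 → ℤ) := Fintype.piFinset (fun _ => Finset.Icc (-10) 10)

theorem zero_mem_win : (0 : G) ∈ win := by
  unfold win
  rw [Fintype.mem_piFinset]
  intro i
  simp

theorem toG_mem_win (d : Fin 3 → Fin 21) : toG d ∈ win := by
  unfold win
  rw [Fintype.mem_piFinset]
  intro i
  unfold toG
  rw [Finset.mem_Icc]
  have := (d i).2
  constructor <;> omega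

/-- The local rule only looks at the window. -/
theorem OK_congr {L : Type} (rel : Fin 3 → L → L → Prop) {F F' : G → Lab L}
    (h : ∀ g ∈ win, F g = F' g) (hF : OK rel F) : OK rel F' := by
  unfold OK at hF ⊢
  rw [← h 0 zero_mem_win]
  refine ⟨fun i j => ?_, fun i => ?_⟩
  · rw [← h _ (toG_mem_win _), ← h _ (toG_mem_win _)]
    exact hF.1 i j
  · rw [← h _ (toG_mem_win _)]
    exact hF.2 i

/-- The frozen statement from the parts. -/
theorem fin (hMach : StmMach) (hSound : StmSound) (hOdo : StmOdo) (hTVal : StmTVal)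
    (hTToep : StmTToep) (hEnv : StmEnv) (hBFin : StmBFin) (hComp : StmComp) :
    ¬ (∀ n : ℕ, 2 ≤ n → ∀ (W : Finset (Fin n → ℤ)) (k : ℕ) (A : Set ({x // x ∈ W} → Fin k)),
      (∀ (X : Type) [TopologicalSpace X] [PolishSpace X] [MeasurableSpace X] [BorelSpace X]
          (act : (Fin n → ℤ) → X → X),
          (∀ x, act 0 x = x) →
          (∀ a b x, act (a + b) x = act a (act b x)) →
          (∀ γ, Measurable (act γ)) →
          (∀ γ x, act γ x = x → γ = 0) →
          ∃ f : X → Fin k,
            (∀ i : Fin k, ∃ u : Set X, IsOpen u ∧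
                Filter.EventuallyEq (residual X) (f ⁻¹' {i}) u) ∧
            ∀ x, (fun w : {x // x ∈ W} => f (act w.1 x)) ∈ A) →
      (∀ (X : Set ℕ) (act : (Fin n → ℤ) → ℕ → ℕ),
          ComputablePred (fun m => m ∈ X) →
          (∀ γ x, x ∈ X → act γ x ∈ X) →
          (∀ x, x ∈ X → act 0 x = x) →
          (∀ a b x, x ∈ X → act (a + b) x = act a (act b x)) →
          (∀ γ, Computable (act γ)) →
          (∀ γ x, x ∈ X → act γ x = x → γ = 0) →
          ∃ f : ℕ → Fin k, Computable f ∧
            ∀ x, x ∈ X → (fun w : {x // x ∈ W} => f (act w.1 x)) ∈ A)) := by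
  classical
  intro H
  obtain ⟨M, ⟨P, hP⟩, hno⟩ := hMach
  obtain ⟨D⟩ := hOdo
  have hval := hTVal D M P hP
  have htoep := hTToep D M P
  obtain ⟨ρ, Φ, hΦm, hΦ, F, hF⟩ := hEnv (Lam M) (rel M) (D.T M P) hval htoep
  have hB : BaireOK (rel M) := hBFin (Lam M) (rel M) ρ Φ F hΦm hΦ hF
  obtain ⟨act, h0, hadd, hc, hfree, hT⟩ := hComp
  set k := Fintype.card (Lab (Lam M)) with hk
  let ε : Lab (Lam M) ≃ Fin k := Fintype.equivFin _
  let ext : ({x // x ∈ win} → Fin k) → G → Lab (Lam M) := fun p g =>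
    if h : g ∈ win then ε.symm (p ⟨g, h⟩) else D.T M P g |> fun a => (fun _ _ => 0, a)
  let A : Set ({x // x ∈ win} → Fin k) := {p | OK (rel M) (ext p)}
  have H3 := H 3 (by norm_num) win k A ?_ Set.univ act ?_ ?_ ?_ ?_ hc ?_
  · obtain ⟨f, hfc, hf⟩ := H3
    obtain ⟨T, hTv, hTc⟩ := hT (Lam M) (rel M) k ε f hfc (by
      intro x
      have := hf x (Set.mem_univ _)
      refine OK_congr (rel M) ?_ this
      intro g hg
      simp only [ext, hg, dif_pos])
    obtain ⟨P', hP', hP'c⟩ := hSound M T hTv hTc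
    exact hno P' hP' hP'c
  · intro X _ _ _ _ act' g0 gadd gm gfree
    obtain ⟨f, hf1, hf2⟩ := hB X act' g0 gadd gm gfree
    refine ⟨fun x => ε (f x), ?_, ?_⟩
    · intro i
      obtain ⟨u, hu, hu2⟩ := hf1 (ε.symm i)
      refine ⟨u, hu, ?_⟩
      have : (fun x => ε (f x)) ⁻¹' {i} = f ⁻¹' {ε.symm i} := by
        ext x
        simp only [Set.mem_preimage, Set.mem_singleton_iff]
        exact (Equiv.eq_symm_apply ε).symm
      rw [this]
      exact hu2
    · intro x
      refine OK_congr (rel M) ?_ (hf2 x)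
      intro g hg
      simp only [ext, hg, dif_pos, Equiv.symm_apply_apply]
  · have : (fun m : ℕ => m ∈ (Set.univ : Set ℕ)) = fun _ => True := by
      funext m
      simp
    rw [this]
    exact ComputablePred.computable_iff.2 ⟨fun _ => true, Computable.const true, by
      funext m
      simp⟩
  · intro γ x _
    exact Set.mem_univ _
  · intro x _
    exact h0 x
  · intro a b x _
    exact hadd a b x
  · intro γ x _ h
    exact hfree γ x h

end Pool.Agent.Y817.BC
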